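import Mathlib

set_option autoImplicit false

/-!
D-neofields (Keedwell) from integer sequences.  The definitions `Neofield`, `Neofield.pow`,
`Neofield.onePlus`, `Neofield.IsDWith`, `DNeofieldOrder` and the construction `mk`, `isD` are copied
from the library module `Pool.Graph.R_seed8.Results.MP_845d9b_co.SevenModEight`.
-/

namespace Pool.Agent.H92.DN

/-- A neofield on the type `J`: `(J, +)` is a loop with identity `0`, the nonzero elements form a
group under multiplication, and both distributive laws hold. -/
structure Neofield (J : Type) where
  add : J → J → J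
  mul : J → J → J
  zero : J
  one : J
  zero_add : ∀ a, add zero a = a
  add_zero : ∀ a, add a zero = a
  left_solve : ∀ a b, ∃! y, add a y = b
  right_solve : ∀ a b, ∃! y, add y a = b
  one_ne_zero : one ≠ zero
  mul_ne_zero : ∀ a b, a ≠ zero → b ≠ zero → mul a b ≠ zero
  mul_assoc : ∀ a b c, a ≠ zero → b ≠ zero → c ≠ zero → mul (mul a b) c = mul a (mul b c)
  one_mul : ∀ a, a ≠ zero → mul one a = a
  mul_one : ∀ a, a ≠ zero → mul a one = a
  exists_inv : ∀ a, a ≠ zero → ∃ b, b ≠ zero ∧ mul a b = one ∧ mul b a = one
  left_distrib : ∀ a b c, mul a (add b c) = add (mul a b) (mul a c)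
  right_distrib : ∀ a b c, mul (add b c) a = add (mul b a) (mul c a)

/-- powers of an element of a neofield -/
def Neofield.pow {J : Type} (S : Neofield J) (x : J) : ℕ → J
  | 0 => S.one
  | n + 1 => S.mul (S.pow x n) x

/-- `1 + x ^ t` -/
def Neofield.onePlus {J : Type} (S : Neofield J) (x : J) (t : ℕ) : J :=
  S.add S.one (S.pow x t)

/-- The multiplicative group of the neofield is cyclic with generator `x`, and the divisibility
property holds with respect to `x`: if the quotients `(1 + x ^ (t + 1)) / (1 + x ^ t)` and
`(1 + x ^ (u + 1)) / (1 + x ^ u)` are defined (all four terms are nonzero) and equal (to `q`),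
then `t` and `u` are the same exponent of `x`. -/
def Neofield.IsDWith {J : Type} (S : Neofield J) (x : J) : Prop :=
  x ≠ S.zero ∧ (∀ y, y ≠ S.zero → ∃ n : ℕ, y = S.pow x n) ∧
    ∀ (t u : ℕ) (q : J), S.onePlus x t ≠ S.zero → S.onePlus x (t + 1) ≠ S.zero →
      S.onePlus x u ≠ S.zero → S.onePlus x (u + 1) ≠ S.zero →
      S.onePlus x (t + 1) = S.mul q (S.onePlus x t) →
      S.onePlus x (u + 1) = S.mul q (S.onePlus x u) → S.pow x t = S.pow x u

/-- There is a D-neofield of order `r`. -/
def DNeofieldOrder (r : ℕ) : Prop :=
  ∃ (J : Type) (S : Neofield J), Nat.card J = r ∧ ∃ x : J, S.IsDWith x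

section construction

variable {m : ℕ}

/-- multiplication by `x ^ a` on `{0} ∪ {x ^ i}` written with exponents -/
def sh (a : ZMod m) (y : Option (ZMod m)) : Option (ZMod m) := y.map (fun z => a + z)

@[simp] theorem sh_none (a : ZMod m) : sh a none = none := rfl
@[simp] theorem sh_some (a b : ZMod m) : sh a (some b) = some (a + b) := rfl

theorem sh_sh (a b : ZMod m) (y : Option (ZMod m)) : sh a (sh b y) = sh (a + b) y := by
  cases y with
  | none => rfl
  | some z => simp [add_assoc]

theorem sh_zero (y : Option (ZMod m)) : sh 0 y = y := by
  cases y with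
  | none => rfl
  | some z => simp

theorem sh_eq_iff (a : ZMod m) (y z : Option (ZMod m)) : sh a y = z ↔ y = sh (-a) z := by
  constructor
  · rintro rfl; rw [sh_sh, neg_add_cancel, sh_zero]
  · rintro rfl; rw [sh_sh, add_neg_cancel, sh_zero]

/-- addition: `x ^ a + y = x ^ a (1 + x ^ (-a) y)` -/
def nadd (T : Option (ZMod m) → Option (ZMod m)) : Option (ZMod m) → Option (ZMod m) →
    Option (ZMod m)
  | none, y => y
  | some a, y => sh a (T (sh (-a) y))

def nmul : Option (ZMod m) → Option (ZMod m) → Option (ZMod m)
  | none, _ => none
  | some a, y => sh a y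

theorem nmul_comm (a b : Option (ZMod m)) : nmul a b = nmul b a := by
  cases a with
  | none => cases b <;> rfl
  | some a => cases b with
    | none => rfl
    | some b => simp [nmul, add_comm]

theorem nmul_ladd (T : Option (ZMod m) → Option (ZMod m)) (a b c : Option (ZMod m)) :
    nmul a (nadd T b c) = nadd T (nmul a b) (nmul a c) := by
  cases a with
  | none => rfl
  | some a => cases b with
    | none => rfl
    | some b =>
      simp only [nmul, nadd, sh_some, sh_sh]
      congr 2
      congr 1
      ring

/-- the neofield attached to a one-plus map `T` -/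
def mk [NeZero m] (T : Option (ZMod m) → Option (ZMod m)) (h0 : T none = some 0)
    (hT : Function.Injective T) (hfix : ∀ k, T (some k) ≠ some k)
    (hR : ∀ k k' v v', T (some k) = some v → T (some k') = some v' → v - k = v' - k' → k = k') :
    Neofield (Option (ZMod m)) where
  add := nadd T
  mul := nmul
  zero := none
  one := some 0
  zero_add := fun _ => rfl
  add_zero := by
    intro a
    cases a with
    | none => rfl
    | some a => simp [nadd, h0]
  left_solve := by
    intro a b
    have hbij : Function.Bijective (nadd T a) := by
      apply Finite.injective_iff_bijective.1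
      intro y z h
      cases a with
      | none => exact h
      | some a =>
        simp only [nadd] at h
        rw [sh_eq_iff, sh_sh, neg_add_cancel, sh_zero] at h
        have h1 := hT h
        rw [sh_eq_iff, sh_sh, neg_add_cancel, sh_zero] at h1
        exact h1
    exact hbij.existsUnique b
  right_solve := by
    intro a b
    have hbij : Function.Bijective (fun y => nadd T y a) := by
      apply Finite.injective_iff_bijective.1
      intro y z h
      cases a with
      | none =>
        have e : ∀ w, nadd T w none = w := by
          intro w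
          cases w with
          | none => rfl
          | some w => simp [nadd, h0]
        simpa only [e] using h
      | some a =>
        have e1 : nadd T none (some a) = some a := rfl
        have e2 : ∀ j, nadd T (some j) (some a) = sh j (T (some (-j + a))) := fun _ => rfl
        cases y with
        | none => cases z with
          | none => rfl
          | some j =>
            exfalso
            simp only [e1, e2] at h
            have h2 := (sh_eq_iff _ _ _).1 h.symm
            rw [sh_some] at h2
            exact hfix _ h2
        | some i => cases z with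
          | none =>
            exfalso
            simp only [e1, e2] at h
            have h2 := (sh_eq_iff _ _ _).1 h
            rw [sh_some] at h2
            exact hfix _ h2
          | some j =>
            simp only [e2] at h
            rcases hi : T (some (-i + a)) with _ | v
            · rcases hj : T (some (-j + a)) with _ | w
              · have := hT (hi.trans hj.symm)
                simp only [Option.some.injEq, add_left_inj, neg_inj] at this
                rw [this]
              · rw [hi, hj] at h; simp at h
            · rcases hj : T (some (-j + a)) with _ | w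
              · rw [hi, hj] at h; simp at h
              · rw [hi, hj] at h
                simp only [sh_some, Option.some.injEq] at h
                have := hR _ _ _ _ hi hj (by linear_combination h)
                simp only [add_left_inj, neg_inj] at this
                rw [this]
    exact hbij.existsUnique b
  one_ne_zero := by simp
  mul_ne_zero := by
    intro a b ha hb
    cases a with
    | none => exact absurd rfl ha
    | some a => cases b with
      | none => exact absurd rfl hb
      | some b => simp [nmul]
  mul_assoc := by
    intro a b c _ _ _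
    cases a with
    | none => rfl
    | some a => cases b with
      | none => rfl
      | some b => simp only [nmul, sh_some, sh_sh]
  one_mul := by
    intro a _
    exact sh_zero a
  mul_one := by
    intro a _
    rw [nmul_comm]
    exact sh_zero a
  exists_inv := by
    intro a ha
    cases a with
    | none => exact absurd rfl ha
    | some a => exact ⟨some (-a), by simp, by simp [nmul], by simp [nmul]⟩
  left_distrib := nmul_ladd T
  right_distrib := by
    intro a b c
    rw [nmul_comm, nmul_ladd, nmul_comm a b, nmul_comm a c]

theorem card_option (m : ℕ) [NeZero m] : Nat.card (Option (ZMod m)) = m + 1 := by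
  rw [Nat.card_eq_fintype_card, Fintype.card_option, ZMod.card]

theorem isD [NeZero m] (T : Option (ZMod m) → Option (ZMod m)) (h0 : T none = some 0)
    (hT : Function.Injective T) (hfix : ∀ k, T (some k) ≠ some k)
    (hR : ∀ k k' v v', T (some k) = some v → T (some k') = some v' → v - k = v' - k' → k = k')
    (hD : ∀ t u v v' w w', T (some t) = some v → T (some (t + 1)) = some v' →
      T (some u) = some w → T (some (u + 1)) = some w' → v' - v = w' - w → t = u) :
    (mk T h0 hT hfix hR).IsDWith (some 1) := by
  have hpow : ∀ n : ℕ, (mk T h0 hT hfix hR).pow (some 1) n = some (n : ZMod m) := by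
    intro n
    induction n with
    | zero => simp [Neofield.pow, mk]
    | succ n ih =>
      rw [Neofield.pow, ih]
      simp [mk, nmul]
  have hone : ∀ n : ℕ, (mk T h0 hT hfix hR).onePlus (some 1) n = T (some (n : ZMod m)) := by
    intro n
    rw [Neofield.onePlus, hpow]
    change nadd T (some 0) (some (n : ZMod m)) = _
    simp only [nadd, neg_zero, sh_zero]
  refine ⟨by simp [mk], ?_, ?_⟩
  · intro y hy
    cases y with
    | none => exact absurd rfl hy
    | some k => exact ⟨k.val, by rw [hpow, ZMod.natCast_zmod_val]⟩
  · intro t u q h1 h2 h3 h4 h5 h6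
    rw [hpow, hpow]
    rw [hone, hone] at h5 h6
    rw [hone] at h1 h2 h3 h4
    push_cast at h2 h4 h5 h6
    have e0 : (mk T h0 hT hfix hR).zero = none := rfl
    rw [e0] at h1 h2 h3 h4
    obtain ⟨v, hv⟩ := Option.ne_none_iff_exists'.1 h1
    obtain ⟨v', hv'⟩ := Option.ne_none_iff_exists'.1 h2
    obtain ⟨w, hw⟩ := Option.ne_none_iff_exists'.1 h3
    obtain ⟨w', hw'⟩ := Option.ne_none_iff_exists'.1 h4
    rw [hv, hv'] at h5
    rw [hw, hw'] at h6
    change some v' = nmul q (some v) at h5
    change some w' = nmul q (some w) at h6
    cases q with
    | none => simp [nmul] at h5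
    | some q =>
      simp only [nmul, sh_some, Option.some.injEq] at h5 h6
      rw [hD _ _ _ _ _ _ hv hv' hw hw' (by rw [h5, h6]; ring)]

end construction


/-! ### from a sequence to a D-neofield -/

section fromSeq

variable {m : ℕ} [NeZero m]

/-- the index `i` of the exponent `k`, so that `k = K + i` -/
def idx (K k : ZMod m) : ℕ := (k - K).val

theorem idx_lt (K k : ZMod m) : idx K k < m := ZMod.val_lt _

theorem idx_spec (K k : ZMod m) : k = ((idx K k : ℕ) : ZMod m) + K := by
  rw [idx, ZMod.natCast_zmod_val]; ring

theorem idx_inj (K k l : ZMod m) (h : idx K k = idx K l) : k = l := by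
  rw [idx_spec K k, idx_spec K l, h]

theorem idx_succ (K k : ZMod m) (h : idx K k + 1 ≠ m) : idx K (k + 1) = idx K k + 1 := by
  have h1 := idx_lt K k
  have h2 : (k + 1 - K) = ((idx K k + 1 : ℕ) : ZMod m) := by
    have := idx_spec K k
    push_cast
    linear_combination this
  rw [idx, h2, ZMod.val_natCast, Nat.mod_eq_of_lt (by omega)]

/-- the map `y ↦ 1 + y` built from the sequence `c`, the value `cs` missed by `c` and the shift `K` -/
def T (c : ℕ → ℤ) (cs K : ZMod m) : Option (ZMod m) → Option (ZMod m)
  | none => some 0
  | some k => if idx K k + 1 = m then none else some ((c (idx K k) : ZMod m) - cs)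

theorem T_some (c : ℕ → ℤ) (cs K k v : ZMod m) (h : T c cs K (some k) = some v) :
    idx K k < m - 1 ∧ v = (c (idx K k) : ZMod m) - cs := by
  have h1 := idx_lt K k
  simp only [T] at h
  split_ifs at h with h2
  exact ⟨by omega, (Option.some.inj h).symm⟩

theorem T_none (c : ℕ → ℤ) (cs K k : ZMod m) (h : T c cs K (some k) = none) :
    idx K k + 1 = m := by
  simp only [T] at h
  split_ifs at h with h2
  exact h2

/-- an injective map from `m - 1` indices to the `m` residues misses some residue -/
theorem exists_missed (f : ℕ → ZMod m) :
    ∃ z : ZMod m, ∀ i, i < m - 1 → f i ≠ z := by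
  classical
  by_contra hcon
  push Not at hcon
  have hsub : (Finset.univ : Finset (ZMod m)) ⊆ (Finset.range (m - 1)).image f := by
    intro z _
    obtain ⟨i, hi, hz⟩ := hcon z
    exact Finset.mem_image.2 ⟨i, Finset.mem_range.2 hi, hz⟩
  have h1 := Finset.card_le_card hsub
  have h2 : ((Finset.range (m - 1)).image f).card ≤ m - 1 :=
    (Finset.card_image_le).trans (by simp)
  rw [Finset.card_univ, ZMod.card] at h1
  have := NeZero.pos m
  omega

/-- **From sequences to D-neofields.**  If `c 0, ..., c (m - 2)` are pairwise distinct modulo `m`,
the numbers `c i - i` are pairwise distinct modulo `m` and the consecutive differences are pairwise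
distinct modulo `m`, then there is a D-neofield of order `m + 1`. -/
theorem order_of_seq (m : ℕ) (hm : 2 ≤ m) (c : ℕ → ℤ)
    (hc : ∀ i j : ℕ, i < m - 1 → j < m - 1 → (m : ℤ) ∣ c i - c j → i = j)
    (hb : ∀ i j : ℕ, i < m - 1 → j < m - 1 → (m : ℤ) ∣ (c i - i) - (c j - j) → i = j)
    (hd : ∀ i j : ℕ, i < m - 2 → j < m - 2 →
      (m : ℤ) ∣ (c (i + 1) - c i) - (c (j + 1) - c j) → i = j) : DNeofieldOrder (m + 1) := by
  haveI : NeZero m := ⟨by omega⟩
  obtain ⟨cs, hcs⟩ := exists_missed (m := m) (fun i => (c i : ZMod m))
  obtain ⟨bs, hbs⟩ := exists_missed (m := m) (fun i => (c i : ZMod m) - i)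
  set K : ZMod m := bs - cs with hK
  have hT : Function.Injective (T c cs K) := by
    intro y z h
    cases y with
    | none => cases z with
      | none => rfl
      | some k =>
        exfalso
        obtain ⟨h1, h2⟩ := T_some c cs K k 0 h.symm
        exact hcs _ h1 (sub_eq_zero.1 h2.symm)
    | some k => cases z with
      | none =>
        exfalso
        obtain ⟨h1, h2⟩ := T_some c cs K k 0 h
        exact hcs _ h1 (sub_eq_zero.1 h2.symm)
      | some l =>
        rcases hk : T c cs K (some k) with _ | v
        · rw [hk] at h
          have e1 := T_none c cs K k hk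
          have e2 := T_none c cs K l h.symm
          rw [idx_inj K k l (by omega)]
        · rw [hk] at h
          obtain ⟨h1, h2⟩ := T_some c cs K k v hk
          obtain ⟨h3, h4⟩ := T_some c cs K l v h.symm
          have h5 : ((c (idx K l) : ℤ) : ZMod m) = ((c (idx K k) : ℤ) : ZMod m) := by
            linear_combination h2 - h4
          rw [ZMod.intCast_eq_intCast_iff_dvd_sub] at h5
          rw [idx_inj K k l (hc _ _ h1 h3 h5)]
  have hfix : ∀ k, T c cs K (some k) ≠ some k := by
    intro k h
    obtain ⟨h1, h2⟩ := T_some c cs K k k h
    apply hbs _ h1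
    have h3 := idx_spec K k
    linear_combination h3 - h2 + hK
  have hR : ∀ k k' v v', T c cs K (some k) = some v → T c cs K (some k') = some v' →
      v - k = v' - k' → k = k' := by
    intro k k' v v' h h' hv
    obtain ⟨h1, h2⟩ := T_some c cs K k v h
    obtain ⟨h3, h4⟩ := T_some c cs K k' v' h'
    have h5 := idx_spec K k
    have h6 := idx_spec K k'
    apply idx_inj K
    have h7 : (((c (idx K k') - (idx K k' : ℕ)) : ℤ) : ZMod m) =
        (((c (idx K k) - (idx K k : ℕ)) : ℤ) : ZMod m) := by
      push_cast
      linear_combination h2 - h4 - hv - h5 + h6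
    rw [ZMod.intCast_eq_intCast_iff_dvd_sub] at h7
    exact hb _ _ h1 h3 h7
  have hD : ∀ t u v v' w w', T c cs K (some t) = some v → T c cs K (some (t + 1)) = some v' →
      T c cs K (some u) = some w → T c cs K (some (u + 1)) = some w' → v' - v = w' - w →
      t = u := by
    intro t u v v' w w' h1 h2 h3 h4 he
    obtain ⟨a1, a2⟩ := T_some c cs K t v h1
    obtain ⟨b1, b2⟩ := T_some c cs K (t + 1) v' h2
    obtain ⟨c1, c2⟩ := T_some c cs K u w h3
    obtain ⟨d1, d2⟩ := T_some c cs K (u + 1) w' h4
    rw [idx_succ K t (by omega)] at b1 b2
    rw [idx_succ K u (by omega)] at d1 d2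
    apply idx_inj K
    have h7 : (((c (idx K u + 1) - c (idx K u)) : ℤ) : ZMod m) =
        (((c (idx K t + 1) - c (idx K t)) : ℤ) : ZMod m) := by
      push_cast
      linear_combination b2 - a2 - d2 + c2 - he
    rw [ZMod.intCast_eq_intCast_iff_dvd_sub] at h7
    exact hd _ _ (by omega) (by omega) h7
  refine ⟨Option (ZMod m), mk (T c cs K) rfl hT hfix hR, ?_, some 1, ?_⟩
  · rw [card_option]
  · exact isD (T c cs K) rfl hT hfix hR hD

end fromSeq

end Pool.Agent.H92.DN
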