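import Pool.Agent.H92.DN.Core

set_option autoImplicit false

namespace Pool.Agent.H92.DN

theorem bound (m X k K : ℤ) (hm : 0 < m) (h : X = m * k) (h1 : -(K * m) < X) (h2 : X < K * m) :
    -K < k ∧ k < K := by
  subst h
  constructor
  · by_contra hc
    push Not at hc
    nlinarith
  · by_contra hc
    push Not at hc
    nlinarith

namespace F3

/-- the sequence for `m = 6 n + 3` -/
def c (n i : ℕ) : ℤ :=
  if i < 3 * n + 1 then
    (if i % 3 = 0 then 12 * ((i / 3 : ℕ) : ℤ)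
    else if i % 3 = 1 then -6 * ((i / 3 : ℕ) : ℤ) - 8
    else 6 * ((i / 3 : ℕ) : ℤ) + 4)
  else
    (if (i - (3 * n + 1)) % 3 = 0 then -6 * (((i - (3 * n + 1)) / 3 : ℕ) : ℤ) - 4
    else if (i - (3 * n + 1)) % 3 = 1 then 12 * (((i - (3 * n + 1)) / 3 : ℕ) : ℤ) + 6
    else 6 * (((i - (3 * n + 1)) / 3 : ℕ) : ℤ) + 2)

/-- the consecutive differences -/
def d (n i : ℕ) : ℤ :=
  if i < 3 * n then
    (if i % 3 = 0 then -18 * ((i / 3 : ℕ) : ℤ) - 8
    else if i % 3 = 1 then 12 * ((i / 3 : ℕ) : ℤ) + 12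
    else 6 * ((i / 3 : ℕ) : ℤ) + 8)
  else if i = 3 * n then -12 * (n : ℤ) - 4
  else
    (if (i - (3 * n + 1)) % 3 = 0 then 18 * (((i - (3 * n + 1)) / 3 : ℕ) : ℤ) + 10
    else if (i - (3 * n + 1)) % 3 = 1 then -6 * (((i - (3 * n + 1)) / 3 : ℕ) : ℤ) - 4
    else -12 * (((i - (3 * n + 1)) / 3 : ℕ) : ℤ) - 12)

theorem d_eq (n i : ℕ) : c n (i + 1) - c n i = d n i := by
  simp only [c, d]
  split_ifs <;> omega

theorem c_inj (n i j : ℕ) (hi : i < 6 * n + 2) (hj : j < 6 * n + 2)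
    (h : ((6 * n + 3 : ℕ) : ℤ) ∣ c n i - c n j) : i = j := by
  obtain ⟨k, hk⟩ := h
  push_cast at hk
  have hm0 : (0 : ℤ) < 6 * (n : ℤ) + 3 := by positivity
  simp only [c] at hk
  split_ifs at hk <;>
  · obtain ⟨h1, h2⟩ := bound _ _ _ 4 hm0 hk (by omega) (by omega)
    interval_cases k <;> omega

theorem b_inj (n i j : ℕ) (h3 : n % 3 ≠ 1) (hi : i < 6 * n + 2) (hj : j < 6 * n + 2)
    (h : ((6 * n + 3 : ℕ) : ℤ) ∣ (c n i - i) - (c n j - j)) : i = j := by
  obtain ⟨k, hk⟩ := h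
  push_cast at hk
  have hm0 : (0 : ℤ) < 6 * (n : ℤ) + 3 := by positivity
  simp only [c] at hk
  split_ifs at hk <;>
  · obtain ⟨h1, h2⟩ := bound _ _ _ 4 hm0 hk (by omega) (by omega)
    interval_cases k <;> omega

theorem d_inj (n i j : ℕ) (h3 : n % 3 ≠ 1) (hi : i < 6 * n + 1) (hj : j < 6 * n + 1)
    (h : ((6 * n + 3 : ℕ) : ℤ) ∣ (c n (i + 1) - c n i) - (c n (j + 1) - c n j)) : i = j := by
  rw [d_eq, d_eq] at h
  obtain ⟨k, hk⟩ := h
  push_cast at hk
  have hm0 : (0 : ℤ) < 6 * (n : ℤ) + 3 := by positivity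
  simp only [d] at hk
  split_ifs at hk <;>
  · obtain ⟨h1, h2⟩ := bound _ _ _ 7 hm0 hk (by omega) (by omega)
    interval_cases k <;> omega

/-- There is a D-neofield of order `6 n + 4` whenever `6 n + 3` is not divisible by nine. -/
theorem order (n : ℕ) (h3 : n % 3 ≠ 1) : DNeofieldOrder (6 * n + 4) := by
  refine order_of_seq (6 * n + 3) (by omega) (c n) ?_ ?_ ?_
  · intro i j hi hj h
    exact c_inj n i j (by omega) (by omega) h
  · intro i j hi hj h
    exact b_inj n i j h3 (by omega) (by omega) h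
  · intro i j hi hj h
    exact d_inj n i j h3 (by omega) (by omega) h

end F3

end Pool.Agent.H92.DN
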