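import Pool.Agent.H92.DN.Core

set_option autoImplicit false

/-!
D-neofields of order `2 ^ k p + 1` for odd `p`.

Write `N = 2 M = 2 ^ k` and let `s 0, ..., s (N - 1)` be integers (the template).  The sequence is
`c (j + N t) = j (j + 3) / 2 + M (3 t - j - s_j (2 t + 1) + (j + s_j) p)` for `0 ≤ j < N`.
-/

namespace Pool.Agent.H92.DN.Pow2

/-- the value of the sequence at the index `j + 2 M t`, where `a = s_j` -/
def val (M p : ℕ) (a : ℤ) (j t : ℕ) : ℤ :=
  ((j : ℤ) * (j + 3)) / 2 + M * (3 * t - j - a * (2 * t + 1) + (j + a) * p)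

/-- the sequence -/
def c (M p : ℕ) (s : ℕ → ℤ) (i : ℕ) : ℤ :=
  val M p (s (i % (2 * M))) (i % (2 * M)) (i / (2 * M))

theorem key (N : ℕ) (a b : ℤ) (hab : Odd (a + b)) (h : (2 : ℤ) ^ N ∣ a * b) :
    (2 : ℤ) ^ N ∣ a ∨ (2 : ℤ) ^ N ∣ b := by
  have odd_coprime : ∀ x : ℤ, Odd x → IsCoprime ((2 : ℤ) ^ N) x := by
    rintro x ⟨m, rfl⟩
    exact IsCoprime.pow_left ⟨-m, 1, by ring⟩
  rcases Int.even_or_odd a with ha | ha
  · have hb : Odd b := by
      rcases Int.even_or_odd b with hb | hb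
      · exact absurd hab (Int.not_odd_iff_even.2 (ha.add hb))
      · exact hb
    exact Or.inl ((odd_coprime b hb).dvd_of_dvd_mul_right h)
  · exact Or.inr ((odd_coprime a ha).dvd_of_dvd_mul_left h)

/-- a multiple of `n` strictly between `-n` and `n` is zero -/
theorem small {n x : ℤ} (h : n ∣ x) (h1 : -n < x) (h2 : x < n) : x = 0 := by
  obtain ⟨t, rfl⟩ := h
  have h3 : t < 1 := by
    by_contra h
    push Not at h
    nlinarith
  have h4 : -1 < t := by
    by_contra h
    push Not at h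
    nlinarith
  have : t = 0 := by omega
  rw [this, mul_zero]

theorem two_q (j : ℕ) : 2 * (((j : ℤ) * (j + 3)) / 2) = (j : ℤ) * (j + 3) := by
  have h : (2 : ℤ) ∣ (j : ℤ) * (j + 3) := by
    rcases Int.even_or_odd (j : ℤ) with ⟨m, hm⟩ | ⟨m, hm⟩
    · exact ⟨m * (j + 3), by rw [hm]; ring⟩
    · exact ⟨j * (m + 2), by rw [hm]; ring⟩
  exact Int.mul_ediv_cancel' h

theorem coprime_two_mul {a : ℤ} {p : ℕ} (ha : Odd a) (h : IsCoprime a (p : ℤ)) :
    IsCoprime (2 * (p : ℤ)) a := by
  have h2 : IsCoprime (2 : ℤ) a := by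
    obtain ⟨m, rfl⟩ := ha
    exact ⟨-m, 1, by ring⟩
  exact h2.mul_left h.symm

variable {M p : ℕ} {s : ℕ → ℤ}

/-- the conditions on the template `s` and on `p` -/
structure Good (M p : ℕ) (s : ℕ → ℤ) : Prop where
  hM : ∃ k : ℕ, 2 * M = 2 ^ k
  hM2 : 2 ≤ M
  hp : Odd p
  hC : ∀ j l : ℕ, j + l + 3 = 2 * M → s l = s j ∨ s l = 3 - s j
  hB : ∀ j l : ℕ, j + l + 1 = 2 * M → s l = s j ∨ s l = 1 - s j
  h0 : s 0 = 0
  h1 : s (2 * M - 1) = 1
  h2 : s (2 * M - 2) = 2
  hD : ∀ j : ℕ, j + 1 < 2 * M → IsCoprime (s (j + 1) - s j) (p : ℤ)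
  hu : ∀ j : ℕ, j < 2 * M → IsCoprime (3 - 2 * s j) (p : ℤ)
  hv : ∀ j : ℕ, j < 2 * M → IsCoprime (1 - 2 * s j) (p : ℤ)

theorem c_inj (G : Good M p s) (i i' : ℕ) (hi : i < 2 * M * p - 1) (hi' : i' < 2 * M * p - 1)
    (h : ((2 * M * p : ℕ) : ℤ) ∣ c M p s i - c M p s i') : i = i' := by
  have hM2 := G.hM2
  obtain ⟨w, hw⟩ := G.hp
  obtain ⟨k, hk⟩ := G.hM
  have hk' : (2 : ℤ) ^ k = 2 * (M : ℤ) := by exact_mod_cast hk.symm
  obtain ⟨j, hj⟩ : ∃ j, j = i % (2 * M) := ⟨_, rfl⟩
  obtain ⟨l, hl⟩ : ∃ l, l = i' % (2 * M) := ⟨_, rfl⟩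
  obtain ⟨t, ht⟩ : ∃ t, t = i / (2 * M) := ⟨_, rfl⟩
  obtain ⟨u, hu⟩ : ∃ u, u = i' / (2 * M) := ⟨_, rfl⟩
  have ei : i = 2 * M * t + j := by rw [hj, ht]; exact (Nat.div_add_mod i (2 * M)).symm
  have ei' : i' = 2 * M * u + l := by rw [hl, hu]; exact (Nat.div_add_mod i' (2 * M)).symm
  have jlt : j < 2 * M := by rw [hj]; exact Nat.mod_lt _ (by omega)
  have llt : l < 2 * M := by rw [hl]; exact Nat.mod_lt _ (by omega)
  have tlt : t < p := by
    rw [ht]; exact Nat.div_lt_of_lt_mul (by omega)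
  have ult : u < p := by
    rw [hu]; exact Nat.div_lt_of_lt_mul (by omega)
  simp only [c, ← hj, ← hl, ← ht, ← hu, val] at h
  have q1 := two_q j
  have q2 := two_q l
  generalize hQ1 : ((j : ℤ) * (j + 3)) / 2 = Q1 at *
  generalize hQ2 : ((l : ℤ) * (l + 3)) / 2 = Q2 at *
  obtain ⟨K, hK⟩ := h
  push_cast at hK
  have hMpos : (0 : ℤ) < M := by exact_mod_cast (by omega : 0 < M)
  have hMne : (M : ℤ) ≠ 0 := hMpos.ne'
  have hdvd : (2 : ℤ) ^ k ∣ ((j : ℤ) - l) * (j + l + 3) := by
    rw [hk']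
    refine ⟨2 * p * K - (3 * t - j - s j * (2 * t + 1) + (j + s j) * p) +
      (3 * u - l - s l * (2 * u + 1) + (l + s l) * p), ?_⟩
    linear_combination 2 * hK - q1 + q2
  have hodd : Odd (((j : ℤ) - l) + (j + l + 3)) := ⟨j + 1, by ring⟩
  have tz : (t : ℤ) < p := by exact_mod_cast tlt
  have uz : (u : ℤ) < p := by exact_mod_cast ult
  have t0 : (0 : ℤ) ≤ t := by positivity
  have u0 : (0 : ℤ) ≤ u := by positivity
  have pz : (p : ℤ) = 2 * w + 1 := by exact_mod_cast hw
  rcases key k _ _ hodd hdvd with h3 | h3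
  · -- same class
    rw [hk'] at h3
    have hjl : (j : ℤ) - l = 0 := small h3 (by omega) (by omega)
    have hjl' : j = l := by omega
    subst hjl'
    have hQ : Q1 = Q2 := by omega
    have h4 : (3 - 2 * s j) * ((t : ℤ) - u) = 2 * p * K := by
      apply mul_left_cancel₀ hMne
      linear_combination hK - hQ
    have h5 : (2 * (p : ℤ)) ∣ (t : ℤ) - u :=
      (coprime_two_mul ⟨1 - s j, by ring⟩ (G.hu j jlt)).dvd_of_dvd_mul_left ⟨K, h4⟩
    have h6 : (t : ℤ) - u = 0 := small h5 (by omega) (by omega)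
    have h7 : t = u := by omega
    rw [ei, ei', h7]
  · rw [hk'] at h3
    obtain ⟨e, he⟩ := h3
    have e1 : e = 1 ∨ e = 2 := by
      have a1 : 0 < e := by
        by_contra hcon
        push Not at hcon
        nlinarith
      have a2 : e < 3 := by
        by_contra hcon
        push Not at hcon
        nlinarith
      omega
    rcases e1 with rfl | rfl
    · -- paired classes
      have hsum : j + l + 3 = 2 * M := by omega
      have hQ : Q1 - Q2 = M * ((j : ℤ) - l) := by
        have : 2 * (Q1 - Q2) = 2 * (M * ((j : ℤ) - l)) := by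
          linear_combination q1 - q2 + ((j : ℤ) - l) * he
        omega
      have h4 : (3 * (t : ℤ) - s j * (2 * t + 1)) - (3 * u - s l * (2 * u + 1)) +
          (j + s j - l - s l) * p = 2 * p * K := by
        apply mul_left_cancel₀ hMne
        linear_combination hK - hQ
      rcases G.hC j l hsum with hs | hs
      · rw [hs] at h4
        exfalso
        have h5 : (p : ℤ) ∣ (3 - 2 * s j) * ((t : ℤ) - u) :=
          ⟨2 * K - (j - l), by linear_combination h4⟩
        have h6 := (G.hu j jlt).symm.dvd_of_dvd_mul_left h5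
        have h7 : (t : ℤ) - u = 0 := small h6 (by omega) (by omega)
        have h8 : (p : ℤ) * ((j : ℤ) - l - 2 * K) = 0 := by
          linear_combination h4 - (3 - 2 * s j) * h7
        have h9 : (j : ℤ) - l - 2 * K = 0 := by
          rcases mul_eq_zero.1 h8 with h | h
          · omega
          · exact h
        omega
      · rw [hs] at h4
        exfalso
        have h5 : (2 * (p : ℤ)) ∣ (3 - 2 * s j) * ((t : ℤ) + u + 1) :=
          ⟨K - (j - M + s j), by
            have : (j : ℤ) - l - 3 = 2 * (j - M) := by omega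
            linear_combination h4 - p * this⟩
        have h6 := (coprime_two_mul ⟨1 - s j, by ring⟩ (G.hu j jlt)).dvd_of_dvd_mul_left h5
        have h7 : (t : ℤ) + u + 1 = 0 := small h6 (by omega) (by omega)
        omega
    · -- the classes `2 M - 2` and `2 M - 1`
      exfalso
      have hQ : Q1 - Q2 = 2 * M * ((j : ℤ) - l) := by
        have : 2 * (Q1 - Q2) = 2 * (2 * M * ((j : ℤ) - l)) := by
          linear_combination q1 - q2 + ((j : ℤ) - l) * he
        omega
      have hcases : (j = 2 * M - 2 ∧ l = 2 * M - 1) ∨ (j = 2 * M - 1 ∧ l = 2 * M - 2) := by omega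
      rcases hcases with ⟨r1, r2⟩ | ⟨r1, r2⟩
      · have s1 : s j = 2 := by rw [r1]; exact G.h2
        have s2 : s l = 1 := by rw [r2]; exact G.h1
        have r3 : (j : ℤ) - l = -1 := by omega
        have h4 : -((t : ℤ) + u + 2) = 2 * p * K := by
          apply mul_left_cancel₀ hMne
          rw [s1, s2] at hK
          linear_combination hK - hQ - (M * (1 + (p : ℤ))) * r3 + M * r3 * 2 - 2 * M * r3
        have h5 : (2 * (p : ℤ)) ∣ (t : ℤ) + u + 2 := ⟨-K, by linear_combination -h4⟩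
        have u1 : u + 1 < p := by
          by_contra hcon
          have : p = u + 1 := by omega
          rw [ei', r2, this] at hi'
          have : 2 * M * (u + 1) = 2 * M * u + 2 * M := by ring
          omega
        have h7 : (t : ℤ) + u + 2 = 0 := small h5 (by omega) (by omega)
        omega
      · have s1 : s j = 1 := by rw [r1]; exact G.h1
        have s2 : s l = 2 := by rw [r2]; exact G.h2
        have r3 : (j : ℤ) - l = 1 := by omega
        have h4 : ((t : ℤ) + u + 2) = 2 * p * K := by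
          apply mul_left_cancel₀ hMne
          rw [s1, s2] at hK
          linear_combination hK - hQ - (M * (1 + (p : ℤ))) * r3 + M * r3 * 2 - 2 * M * r3
        have h5 : (2 * (p : ℤ)) ∣ (t : ℤ) + u + 2 := ⟨K, h4⟩
        have u1 : t + 1 < p := by
          by_contra hcon
          have : p = t + 1 := by omega
          rw [ei, r1, this] at hi
          have : 2 * M * (t + 1) = 2 * M * t + 2 * M := by ring
          omega
        have h7 : (t : ℤ) + u + 2 = 0 := small h5 (by omega) (by omega)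
        omega

theorem b_inj (G : Good M p s) (i i' : ℕ) (hi : i < 2 * M * p - 1) (hi' : i' < 2 * M * p - 1)
    (h : ((2 * M * p : ℕ) : ℤ) ∣ (c M p s i - i) - (c M p s i' - i')) : i = i' := by
  have hM2 := G.hM2
  obtain ⟨k, hk⟩ := G.hM
  have hk' : (2 : ℤ) ^ k = 2 * (M : ℤ) := by exact_mod_cast hk.symm
  obtain ⟨j, hj⟩ : ∃ j, j = i % (2 * M) := ⟨_, rfl⟩
  obtain ⟨l, hl⟩ : ∃ l, l = i' % (2 * M) := ⟨_, rfl⟩
  obtain ⟨t, ht⟩ : ∃ t, t = i / (2 * M) := ⟨_, rfl⟩
  obtain ⟨u, hu⟩ : ∃ u, u = i' / (2 * M) := ⟨_, rfl⟩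
  have ei : i = 2 * M * t + j := by rw [hj, ht]; exact (Nat.div_add_mod i (2 * M)).symm
  have ei' : i' = 2 * M * u + l := by rw [hl, hu]; exact (Nat.div_add_mod i' (2 * M)).symm
  have jlt : j < 2 * M := by rw [hj]; exact Nat.mod_lt _ (by omega)
  have llt : l < 2 * M := by rw [hl]; exact Nat.mod_lt _ (by omega)
  have tlt : t < p := by
    rw [ht]; exact Nat.div_lt_of_lt_mul (by omega)
  have ult : u < p := by
    rw [hu]; exact Nat.div_lt_of_lt_mul (by omega)
  simp only [c, ← hj, ← hl, ← ht, ← hu, val] at h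
  have eiz : (i : ℤ) = 2 * M * t + j := by exact_mod_cast ei
  have eiz' : (i' : ℤ) = 2 * M * u + l := by exact_mod_cast ei'
  rw [eiz, eiz'] at h
  have q1 := two_q j
  have q2 := two_q l
  generalize hQ1 : ((j : ℤ) * (j + 3)) / 2 = Q1 at *
  generalize hQ2 : ((l : ℤ) * (l + 3)) / 2 = Q2 at *
  obtain ⟨K, hK⟩ := h
  push_cast at hK
  have hMpos : (0 : ℤ) < M := by exact_mod_cast (by omega : 0 < M)
  have hMne : (M : ℤ) ≠ 0 := hMpos.ne'
  have hdvd : (2 : ℤ) ^ k ∣ ((j : ℤ) - l) * (j + l + 1) := by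
    rw [hk']
    refine ⟨2 * p * K - (t - j - s j * (2 * t + 1) + (j + s j) * p) +
      (u - l - s l * (2 * u + 1) + (l + s l) * p), ?_⟩
    linear_combination 2 * hK - q1 + q2
  have hodd : Odd (((j : ℤ) - l) + (j + l + 1)) := ⟨j, by ring⟩
  have tz : (t : ℤ) < p := by exact_mod_cast tlt
  have uz : (u : ℤ) < p := by exact_mod_cast ult
  have t0 : (0 : ℤ) ≤ t := by positivity
  have u0 : (0 : ℤ) ≤ u := by positivity
  rcases key k _ _ hodd hdvd with h3 | h3
  · -- same class
    rw [hk'] at h3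
    have hjl : (j : ℤ) - l = 0 := small h3 (by omega) (by omega)
    have hjl' : j = l := by omega
    subst hjl'
    have hQ : Q1 = Q2 := by omega
    have h4 : (1 - 2 * s j) * ((t : ℤ) - u) = 2 * p * K := by
      apply mul_left_cancel₀ hMne
      linear_combination hK - hQ
    have h5 : (2 * (p : ℤ)) ∣ (t : ℤ) - u :=
      (coprime_two_mul ⟨- s j, by ring⟩ (G.hv j jlt)).dvd_of_dvd_mul_left ⟨K, h4⟩
    have h6 : (t : ℤ) - u = 0 := small h5 (by omega) (by omega)
    have h7 : t = u := by omega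
    rw [ei, ei', h7]
  · rw [hk'] at h3
    obtain ⟨e, he⟩ := h3
    have e1 : e = 1 := by
      have a1 : 0 < e := by
        by_contra hcon
        push Not at hcon
        nlinarith
      have a2 : e < 2 := by
        by_contra hcon
        push Not at hcon
        nlinarith
      omega
    subst e1
    have hsum : j + l + 1 = 2 * M := by omega
    have hQ : Q1 - Q2 = M * ((j : ℤ) - l) + (j - l) := by
      have : 2 * (Q1 - Q2) = 2 * (M * ((j : ℤ) - l) + (j - l)) := by
        linear_combination q1 - q2 + ((j : ℤ) - l) * he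
      omega
    have h4 : ((t : ℤ) - s j * (2 * t + 1)) - (u - s l * (2 * u + 1)) +
        (j + s j - l - s l) * p = 2 * p * K := by
      apply mul_left_cancel₀ hMne
      linear_combination hK - hQ
    rcases G.hB j l hsum with hs | hs
    · rw [hs] at h4
      exfalso
      have h5 : (p : ℤ) ∣ (1 - 2 * s j) * ((t : ℤ) - u) :=
        ⟨2 * K - (j - l), by linear_combination h4⟩
      have h6 := (G.hv j jlt).symm.dvd_of_dvd_mul_left h5
      have h7 : (t : ℤ) - u = 0 := small h6 (by omega) (by omega)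
      have h8 : (p : ℤ) * ((j : ℤ) - l - 2 * K) = 0 := by
        linear_combination h4 - (1 - 2 * s j) * h7
      have h9 : (j : ℤ) - l - 2 * K = 0 := by
        rcases mul_eq_zero.1 h8 with h | h
        · omega
        · exact h
      omega
    · rw [hs] at h4
      exfalso
      have h5 : (2 * (p : ℤ)) ∣ (1 - 2 * s j) * ((t : ℤ) + u + 1) :=
        ⟨K - (j - M + s j), by
          have : (j : ℤ) - l - 1 = 2 * (j - M) := by omega
          linear_combination h4 - p * this⟩
      have h6 := (coprime_two_mul ⟨- s j, by ring⟩ (G.hv j jlt)).dvd_of_dvd_mul_left h5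
      have h7 : (t : ℤ) + u + 1 = 0 := small h6 (by omega) (by omega)
      omega

theorem val_step (w : ℕ) (hw : p = 2 * w + 1) (a b : ℤ) (j t : ℕ) :
    val M p b (j + 1) t - val M p a j t =
      (j : ℤ) + 2 + 2 * M * ((1 + (b - a)) * w - (b - a) * t) := by
  have q1 := two_q j
  have q2 := two_q (j + 1)
  have pz : (p : ℤ) = 2 * w + 1 := by exact_mod_cast hw
  simp only [val]
  push_cast at q2 ⊢
  generalize hQ1 : ((j : ℤ) * (j + 3)) / 2 = Q1 at *
  generalize hQ2 : (((j : ℤ) + 1) * (j + 1 + 3)) / 2 = Q2 at *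
  have hQ : Q2 = Q1 + j + 2 := by
    have : 2 * Q2 = 2 * (Q1 + j + 2) := by linear_combination q2 - q1
    omega
  rw [hQ, pz]
  ring

theorem val_last (hM2 : 2 ≤ M) (t : ℕ) :
    val M p 0 0 (t + 1) - val M p 1 (2 * M - 1) t =
      ((2 * M : ℕ) : ℤ) + 1 + 2 * M * (t - M * p) := by
  have q2 := two_q (2 * M - 1)
  have e : ((2 * M - 1 : ℕ) : ℤ) = 2 * M - 1 := by omega
  simp only [val]
  rw [e] at q2 ⊢
  push_cast
  generalize hQ2 : ((2 * (M : ℤ) - 1) * (2 * M - 1 + 3)) / 2 = Q2 at *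
  have hQ : Q2 = 2 * M * M + M - 1 := by
    have : 2 * Q2 = 2 * (2 * M * M + M - 1) := by linear_combination q2
    omega
  rw [hQ]
  simp
  ring

theorem c_eq (hM2 : 2 ≤ M) (j t : ℕ) (hj : j < 2 * M) :
    c M p s (2 * M * t + j) = val M p (s j) j t := by
  have h1 : (2 * M * t + j) % (2 * M) = j := by
    rw [Nat.mul_add_mod]; exact Nat.mod_eq_of_lt hj
  have h2 : (2 * M * t + j) / (2 * M) = t := by
    rw [Nat.mul_add_div (by omega), Nat.div_eq_of_lt hj, add_zero]
  simp only [c, h1, h2]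

theorem d_inj (G : Good M p s) (i i' : ℕ) (hi : i < 2 * M * p - 2) (hi' : i' < 2 * M * p - 2)
    (h : ((2 * M * p : ℕ) : ℤ) ∣
      (c M p s (i + 1) - c M p s i) - (c M p s (i' + 1) - c M p s i')) : i = i' := by
  have hM2 := G.hM2
  obtain ⟨w, hw⟩ := G.hp
  obtain ⟨j, hj⟩ : ∃ j, j = i % (2 * M) := ⟨_, rfl⟩
  obtain ⟨l, hl⟩ : ∃ l, l = i' % (2 * M) := ⟨_, rfl⟩
  obtain ⟨t, ht⟩ : ∃ t, t = i / (2 * M) := ⟨_, rfl⟩
  obtain ⟨u, hu⟩ : ∃ u, u = i' / (2 * M) := ⟨_, rfl⟩
  have ei : i = 2 * M * t + j := by rw [hj, ht]; exact (Nat.div_add_mod i (2 * M)).symm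
  have ei' : i' = 2 * M * u + l := by rw [hl, hu]; exact (Nat.div_add_mod i' (2 * M)).symm
  have jlt : j < 2 * M := by rw [hj]; exact Nat.mod_lt _ (by omega)
  have llt : l < 2 * M := by rw [hl]; exact Nat.mod_lt _ (by omega)
  have tlt : t < p := by
    rw [ht]; exact Nat.div_lt_of_lt_mul (by omega)
  have ult : u < p := by
    rw [hu]; exact Nat.div_lt_of_lt_mul (by omega)
  have hMpos : (0 : ℤ) < M := by exact_mod_cast (by omega : 0 < M)
  have hMne : (M : ℤ) ≠ 0 := hMpos.ne'
  have tz : (t : ℤ) < p := by exact_mod_cast tlt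
  have uz : (u : ℤ) < p := by exact_mod_cast ult
  have t0 : (0 : ℤ) ≤ t := by positivity
  have u0 : (0 : ℤ) ≤ u := by positivity
  have pz : (p : ℤ) = 2 * w + 1 := by exact_mod_cast hw
  -- the value of a difference
  have step : ∀ x y : ℕ, y + 1 < 2 * M → c M p s (2 * M * x + y + 1) - c M p s (2 * M * x + y) =
      (y : ℤ) + 2 + 2 * M * ((1 + (s (y + 1) - s y)) * w - (s (y + 1) - s y) * x) := by
    intro x y hy
    rw [add_assoc, c_eq hM2 _ _ hy, c_eq hM2 _ _ (by omega), val_step w hw]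
  have last : ∀ x : ℕ, c M p s (2 * M * x + (2 * M - 1) + 1) - c M p s (2 * M * x + (2 * M - 1)) =
      ((2 * M : ℕ) : ℤ) + 1 + 2 * M * (x - M * p) := by
    intro x
    have e : 2 * M * x + (2 * M - 1) + 1 = 2 * M * (x + 1) + 0 := by
      have : 2 * M * (x + 1) = 2 * M * x + 2 * M := by ring
      omega
    rw [e, c_eq hM2 _ _ (by omega), c_eq hM2 _ _ (by omega), G.h0, G.h1, val_last hM2]
  rw [ei, ei'] at h
  obtain ⟨K, hK⟩ := h
  push_cast at hK
  by_cases j1 : j + 1 < 2 * M
  · by_cases l1 : l + 1 < 2 * M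
    · rw [step t j j1, step u l l1] at hK
      have h3 : (2 * (M : ℤ)) ∣ (j : ℤ) - l := by
        refine ⟨p * K - ((1 + (s (j + 1) - s j)) * w - (s (j + 1) - s j) * t) +
          ((1 + (s (l + 1) - s l)) * w - (s (l + 1) - s l) * u), ?_⟩
        linear_combination hK
      have h4 : (j : ℤ) - l = 0 := small h3 (by omega) (by omega)
      have h5 : j = l := by omega
      subst h5
      have h6 : (s (j + 1) - s j) * ((t : ℤ) - u) = p * (-K) := by
        apply mul_left_cancel₀ hMne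
        have : (2 : ℤ) * (M * ((s (j + 1) - s j) * ((t : ℤ) - u))) = 2 * (M * (p * (-K))) := by
          linear_combination -hK
        omega
      have h7 := (G.hD j j1).symm.dvd_of_dvd_mul_left ⟨-K, h6⟩
      have h8 : (t : ℤ) - u = 0 := small h7 (by omega) (by omega)
      have h9 : t = u := by omega
      rw [ei, ei', h9]
    · have l2 : l = 2 * M - 1 := by omega
      rw [step t j j1, l2, last u] at hK
      have h3 : (2 * (M : ℤ)) ∣ (j : ℤ) + 1 := by
        refine ⟨p * K - ((1 + (s (j + 1) - s j)) * w - (s (j + 1) - s j) * t) +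
          1 + (u - M * p), ?_⟩
        push_cast at hK
        linear_combination hK
      exfalso
      have h4 : (j : ℤ) + 1 = 0 := small h3 (by omega) (by omega)
      omega
  · have j2 : j = 2 * M - 1 := by omega
    by_cases l1 : l + 1 < 2 * M
    · rw [step u l l1, j2, last t] at hK
      have h3 : (2 * (M : ℤ)) ∣ (l : ℤ) + 1 := by
        refine ⟨-(p * K) - ((1 + (s (l + 1) - s l)) * w - (s (l + 1) - s l) * u) +
          1 + (t - M * p), ?_⟩
        push_cast at hK
        linear_combination -hK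
      exfalso
      have h4 : (l : ℤ) + 1 = 0 := small h3 (by omega) (by omega)
      omega
    · have l2 : l = 2 * M - 1 := by omega
      rw [j2, l2, last t, last u] at hK
      have h6 : (t : ℤ) - u = p * K := by
        apply mul_left_cancel₀ hMne
        have : (2 : ℤ) * (M * ((t : ℤ) - u)) = 2 * (M * (p * K)) := by
          linear_combination hK
        omega
      have h8 : (t : ℤ) - u = 0 := small ⟨K, h6⟩ (by omega) (by omega)
      have h9 : t = u := by omega
      rw [ei, ei', h9, j2, l2]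

theorem order (G : Good M p s) : DNeofieldOrder (2 * M * p + 1) := by
  have hM2 := G.hM2
  have hp : 1 ≤ p := by
    obtain ⟨w, hw⟩ := G.hp
    omega
  have h4 : 2 * 2 * 1 ≤ 2 * M * p := by
    apply Nat.mul_le_mul _ hp
    omega
  exact order_of_seq (2 * M * p) (by omega) (c M p s)
    (fun i j hi hj h => c_inj G i j hi hj h)
    (fun i j hi hj h => b_inj G i j hi hj h)
    (fun i j hi hj h => d_inj G i j hi hj h)

end Pool.Agent.H92.DN.Pow2
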