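import Pool.Agent.H92.DN.Pow2

set_option autoImplicit false

/-!
Templates for `Pool.Agent.H92.DN.Pow2.Good`: `tpl` for `2 M = 2 ^ k ≥ 16` (all entries in
`{0, 1, 2}`) and `tpl8` for `2 M = 8`.
-/

namespace Pool.Agent.H92.DN.Pow2

/-- the template at even indices -/
def tE (M j : ℕ) : ℤ :=
  if j + 6 ≤ M then 0 else if j + 4 ≤ M then 1 else if j + 2 ≤ M then 2
  else if j ≤ M then 0 else if j ≤ M + 2 then 1 else if j ≤ M + 4 then 2
  else if j + 4 ≤ 2 * M then 1 else 2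

/-- the template at odd indices -/
def tO (M j : ℕ) : ℤ :=
  if j ≤ 1 then 2 else if j + 7 ≤ M then 1 else if j + 5 ≤ M then 2
  else if j + 3 ≤ M then 0 else if j ≤ M then 1 else if j ≤ M + 1 then 2
  else if j + 3 ≤ 2 * M then 0 else 1

/-- the template for `2 M = 2 ^ k`, `k ≥ 4` -/
def tpl (M j : ℕ) : ℤ := if j % 2 = 0 then tE M j else tO M j

theorem tpl_even (M j : ℕ) (h : j % 2 = 0) : tpl M j = tE M j := by simp [tpl, h]

theorem tpl_odd (M j : ℕ) (h : j % 2 = 1) : tpl M j = tO M j := by simp [tpl, h]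

theorem tE_mem (M j : ℕ) : tE M j = 0 ∨ tE M j = 1 ∨ tE M j = 2 := by
  simp only [tE]
  split_ifs <;> simp

theorem tO_mem (M j : ℕ) : tO M j = 0 ∨ tO M j = 1 ∨ tO M j = 2 := by
  simp only [tO]
  split_ifs <;> simp

theorem tpl_mem (M j : ℕ) : tpl M j = 0 ∨ tpl M j = 1 ∨ tpl M j = 2 := by
  rcases Nat.mod_two_eq_zero_or_one j with h | h
  · rw [tpl_even M j h]; exact tE_mem M j
  · rw [tpl_odd M j h]; exact tO_mem M j

theorem t_C (M j l : ℕ) (hM : M % 4 = 0) (hM8 : 8 ≤ M) (hj : j % 2 = 0) (hl : l % 2 = 1)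
    (h : j + l + 3 = 2 * M) : tO M l = tE M j ∨ tO M l = 3 - tE M j := by
  simp only [tE, tO]
  split_ifs <;> omega

theorem t_B (M j l : ℕ) (hM : M % 4 = 0) (hM8 : 8 ≤ M) (hj : j % 2 = 0) (hl : l % 2 = 1)
    (h : j + l + 1 = 2 * M) : tO M l = tE M j ∨ tO M l = 1 - tE M j := by
  simp only [tE, tO]
  split_ifs <;> omega

theorem t_D (M j l : ℕ) (hM : M % 4 = 0) (hM8 : 8 ≤ M) (hj : j % 2 = 0) (hl : l % 2 = 1)
    (h1 : j < 2 * M) (h2 : l < 2 * M) (h : l = j + 1 ∨ j = l + 1) : tO M l ≠ tE M j := by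
  simp only [tE, tO]
  split_ifs <;> omega

theorem tpl_C (M j l : ℕ) (hM : M % 4 = 0) (hM8 : 8 ≤ M) (h : j + l + 3 = 2 * M) :
    tpl M l = tpl M j ∨ tpl M l = 3 - tpl M j := by
  rcases Nat.mod_two_eq_zero_or_one j with hj | hj
  · rw [tpl_even M j hj, tpl_odd M l (by omega)]
    exact t_C M j l hM hM8 hj (by omega) h
  · rw [tpl_odd M j hj, tpl_even M l (by omega)]
    have := t_C M l j hM hM8 (by omega) hj (by omega)
    omega

theorem tpl_B (M j l : ℕ) (hM : M % 4 = 0) (hM8 : 8 ≤ M) (h : j + l + 1 = 2 * M) :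
    tpl M l = tpl M j ∨ tpl M l = 1 - tpl M j := by
  rcases Nat.mod_two_eq_zero_or_one j with hj | hj
  · rw [tpl_even M j hj, tpl_odd M l (by omega)]
    exact t_B M j l hM hM8 hj (by omega) h
  · rw [tpl_odd M j hj, tpl_even M l (by omega)]
    have := t_B M l j hM hM8 (by omega) hj (by omega)
    omega

theorem tpl_D (M j : ℕ) (hM : M % 4 = 0) (hM8 : 8 ≤ M) (h : j + 1 < 2 * M) :
    tpl M (j + 1) ≠ tpl M j := by
  rcases Nat.mod_two_eq_zero_or_one j with hj | hj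
  · rw [tpl_even M j hj, tpl_odd M (j + 1) (by omega)]
    exact t_D M j (j + 1) hM hM8 hj (by omega) (by omega) h (Or.inl rfl)
  · rw [tpl_odd M j hj, tpl_even M (j + 1) (by omega)]
    exact (t_D M (j + 1) j hM hM8 (by omega) hj h (by omega) (Or.inr rfl)).symm

theorem cop3 (p : ℕ) (h2 : p % 2 = 1) (h3 : p % 3 ≠ 0) (d : ℤ) (hd : d ≠ 0) (h : -4 < d)
    (h' : d < 4) : IsCoprime d (p : ℤ) := by
  have c2 : IsCoprime (2 : ℤ) (p : ℤ) := by
    obtain ⟨w, rfl⟩ := Nat.odd_iff.2 h2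
    exact ⟨-w, 1, by push_cast; ring⟩
  have c3 : IsCoprime (3 : ℤ) (p : ℤ) := by
    rw [show (3 : ℤ) = ((3 : ℕ) : ℤ) by rfl, Nat.isCoprime_iff_coprime]
    exact (Nat.Prime.coprime_iff_not_dvd Nat.prime_three).2 (by omega)
  have c1 : IsCoprime (1 : ℤ) (p : ℤ) := isCoprime_one_left
  have : d = 1 ∨ d = 2 ∨ d = 3 ∨ d = -1 ∨ d = -2 ∨ d = -3 := by omega
  rcases this with rfl | rfl | rfl | rfl | rfl | rfl
  · exact c1
  · exact c2
  · exact c3
  · exact c1.neg_left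
  · exact c2.neg_left
  · exact c3.neg_left

theorem cop5 (p : ℕ) (h5 : p % 5 ≠ 0) (d : ℤ) (h : d = 5 ∨ d = -5) : IsCoprime d (p : ℤ) := by
  have c5 : IsCoprime (5 : ℤ) (p : ℤ) := by
    rw [show (5 : ℤ) = ((5 : ℕ) : ℤ) by rfl, Nat.isCoprime_iff_coprime]
    exact (Nat.Prime.coprime_iff_not_dvd Nat.prime_five).2 (by omega)
  rcases h with rfl | rfl
  · exact c5
  · exact c5.neg_left

theorem good_tpl (k p : ℕ) (hk : 4 ≤ k) (h2 : p % 2 = 1) (h3 : p % 3 ≠ 0) :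
    Good (2 ^ (k - 1)) p (tpl (2 ^ (k - 1))) := by
  obtain ⟨n, rfl⟩ : ∃ n, k = n + 4 := ⟨k - 4, by omega⟩
  have hM : 2 ^ (n + 4 - 1) = 8 * 2 ^ n := by
    rw [show n + 4 - 1 = 3 + n by omega, pow_add]; norm_num
  have hn : 0 < 2 ^ n := by positivity
  have hM8 : 8 ≤ 2 ^ (n + 4 - 1) := by omega
  have hM4 : 2 ^ (n + 4 - 1) % 4 = 0 := by omega
  generalize hMM : 2 ^ (n + 4 - 1) = M at *
  refine ⟨⟨n + 4, ?_⟩, by omega, Nat.odd_iff.2 h2, fun j l h => tpl_C M j l hM4 hM8 h,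
    fun j l h => tpl_B M j l hM4 hM8 h, ?_, ?_, ?_, ?_, ?_, ?_⟩
  · rw [← hMM, show n + 4 = (n + 4 - 1) + 1 by omega, pow_succ]
    simp [mul_comm]
  · rw [tpl_even M 0 rfl]
    simp only [tE]
    split_ifs <;> omega
  · rw [tpl_odd M _ (by omega)]
    simp only [tO]
    split_ifs <;> omega
  · rw [tpl_even M _ (by omega)]
    simp only [tE]
    split_ifs <;> omega
  · intro j hj
    have h := tpl_D M j hM4 hM8 hj
    have h1 := tpl_mem M j
    have h4 := tpl_mem M (j + 1)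
    exact cop3 p h2 h3 _ (by omega) (by omega) (by omega)
  · intro j hj
    have h1 := tpl_mem M j
    exact cop3 p h2 h3 _ (by omega) (by omega) (by omega)
  · intro j hj
    have h1 := tpl_mem M j
    exact cop3 p h2 h3 _ (by omega) (by omega) (by omega)

/-- the template for `2 M = 8` -/
def tpl8 (j : ℕ) : ℤ :=
  match j with
  | 0 => 0
  | 1 => -1
  | 2 => 1
  | 3 => 2
  | 4 => -1
  | 5 => 0
  | 6 => 2
  | _ => 1

theorem good_tpl8 (p : ℕ) (h2 : p % 2 = 1) (h3 : p % 3 ≠ 0) (h5 : p % 5 ≠ 0) :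
    Good 4 p tpl8 := by
  have cop : ∀ d : ℤ, (d ≠ 0 ∧ -4 < d ∧ d < 4) ∨ (d = 5 ∨ d = -5) → IsCoprime d (p : ℤ) := by
    rintro d (⟨a, b, e⟩ | h)
    · exact cop3 p h2 h3 d a b e
    · exact cop5 p h5 d h
  refine ⟨⟨3, rfl⟩, by omega, Nat.odd_iff.2 h2, ?_, ?_, rfl, rfl, rfl, ?_, ?_, ?_⟩
  · intro j l h
    have hj : j ≤ 5 := by omega
    have hl : l = 5 - j := by omega
    subst hl
    interval_cases j <;> simp [tpl8]
  · intro j l h
    have hj : j ≤ 7 := by omega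
    have hl : l = 7 - j := by omega
    subst hl
    interval_cases j <;> simp [tpl8]
  · intro j hj
    apply cop
    have hj' : j < 7 := by omega
    interval_cases j <;> simp [tpl8]
  · intro j hj
    apply cop
    interval_cases j <;> simp [tpl8]
  · intro j hj
    apply cop
    interval_cases j <;> simp [tpl8]

/-- D-neofields of order `2 ^ k p + 1` for `k ≥ 4` and `p` coprime to `6`. -/
theorem order_sixteen (k p : ℕ) (hk : 4 ≤ k) (h2 : p % 2 = 1) (h3 : p % 3 ≠ 0) :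
    DNeofieldOrder (2 ^ k * p + 1) := by
  have h := order (good_tpl k p hk h2 h3)
  have e : 2 * 2 ^ (k - 1) = 2 ^ k := by
    rw [← pow_succ', Nat.sub_add_cancel (by omega)]
  rwa [e] at h

/-- D-neofields of order `8 p + 1` for `p` coprime to `30`. -/
theorem order_eight (p : ℕ) (h2 : p % 2 = 1) (h3 : p % 3 ≠ 0) (h5 : p % 5 ≠ 0) :
    DNeofieldOrder (8 * p + 1) := by
  have h := order (good_tpl8 p h2 h3 h5)
  norm_num at h
  exact h

end Pool.Agent.H92.DN.Pow2
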